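import Pool.Agent.Helper5.RC.Uni
import Pool.Agent.Helper25.RC.Defs

/-!
# Local distributions: from one scale to a set

`hS` gives, for every `s` and every large scale `2 ^ j`, a block `B` of bounded additive energy
which is distributed modulo every `q₀ ≤ s` according to `mu q₀`, up to `√(2 ^ j) / s`, for every
cut. The union over the scales, with `s` growing slowly, has the local distribution `mu`.
-/

set_option autoImplicit false

open Finset Filter

namespace Pool.Agent.Helper80.RC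

open Pool.Agent.Helper25.RC (below mem_below)
open Pool.Agent.Helper5.RC (sol blk mem_blk AA)

/-- the block property at the scale `2 ^ j` -/
def Good (mu : ℕ → ℕ → ℝ) (D : ℝ) (s j : ℕ) (B : Finset ℕ) : Prop :=
  B ⊆ range (2 ^ j) ∧ (∀ b ∈ B, 2 * b < 2 ^ j) ∧ ((sol (2 ^ j) B).card : ℝ) ≤ D * 2 ^ j ∧
    √((2 : ℝ) ^ j) ≤ 4 * #B ∧
    ∀ y q₀ : ℕ, 1 ≤ q₀ → q₀ ≤ s → ∀ r₀ < q₀,
      |(#{b ∈ B | b < y ∧ (2 ^ j + b) % q₀ = r₀} : ℝ) - mu q₀ r₀ * #{b ∈ B | b < y}|
        ≤ √((2 : ℝ) ^ j) / s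

/-- powers of two form a chain -/
theorem chain_two : Pool.Agent.Helper72.NS.Chain (fun j => 2 ^ j) :=
  ⟨pow_zero 2, fun j => Dvd.intro _ (pow_succ 2 j).symm, fun j => by
    show 2 * 2 ^ j ≤ 2 ^ (j + 1)
    rw [pow_succ]; omega⟩

/-- the elements below `x` with a property, counted by scales -/
theorem card_below (B : ℕ → Finset ℕ) (hB : ∀ j, B j ⊆ range (2 ^ j)) (x N : ℕ) (hN : x ≤ 2 ^ N)
    (p : ℕ → Prop) [DecidablePred p] :
    #{n ∈ below (AA (fun j => 2 ^ j) B) x | p n} =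
      ∑ j ∈ range N, #{b ∈ B j | b < x - 2 ^ j ∧ p (2 ^ j + b)} := by
  classical
  have h1 : ({n ∈ below (AA (fun j => 2 ^ j) B) x | p n} : Finset ℕ) =
      (range N).biUnion fun j =>
        ({b ∈ B j | b < x - 2 ^ j ∧ p (2 ^ j + b)} : Finset ℕ).image fun b => 2 ^ j + b := by
    ext n
    simp only [mem_filter, mem_below, mem_biUnion, mem_range, mem_image]
    constructor
    · rintro ⟨⟨hx, j, hj⟩, hp⟩
      have h2 := mem_blk.1 hj
      simp only at h2
      have h3 : j < N := by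
        by_contra hcon
        have : 2 ^ N ≤ 2 ^ j := Nat.pow_le_pow_right (by norm_num) (not_lt.1 hcon)
        omega
      refine ⟨j, h3, n - 2 ^ j, ⟨h2.2, by omega, ?_⟩, by omega⟩
      rwa [Nat.add_sub_cancel' h2.1]
    · rintro ⟨j, hj, b, ⟨hb, hbx, hp⟩, rfl⟩
      refine ⟨⟨by omega, j, ?_⟩, hp⟩
      refine mem_blk.2 ⟨Nat.le_add_right _ _, ?_⟩
      simpa using hb
  rw [h1, card_biUnion]
  · refine sum_congr rfl fun j _ => ?_
    exact card_image_of_injective _ (add_right_injective _)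
  · intro i _ j _ hij
    rw [Function.onFun, disjoint_left]
    intro n hi hj
    rw [mem_image] at hi hj
    obtain ⟨b, hb, rfl⟩ := hi
    obtain ⟨b', hb', h2⟩ := hj
    rw [mem_filter] at hb hb'
    have h3 := mem_range.1 (hB i hb.1)
    have h4 := mem_range.1 (hB j hb'.1)
    rcases lt_or_gt_of_ne hij with h | h
    · have h5 : 2 ^ (i + 1) ≤ 2 ^ j := Nat.pow_le_pow_right (by norm_num) h
      rw [pow_succ] at h5
      omega
    · have h5 : 2 ^ (j + 1) ≤ 2 ^ i := Nat.pow_le_pow_right (by norm_num) h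
      rw [pow_succ] at h5
      omega

theorem card_below' (B : ℕ → Finset ℕ) (hB : ∀ j, B j ⊆ range (2 ^ j)) (x N : ℕ)
    (hN : x ≤ 2 ^ N) :
    #(below (AA (fun j => 2 ^ j) B) x) = ∑ j ∈ range N, #{b ∈ B j | b < x - 2 ^ j} := by
  have h1 := card_below B hB x N hN (fun _ => True)
  simpa using h1

/-- the discrepancy is at most the sum of the discrepancies of the blocks -/
theorem disc_le (B : ℕ → Finset ℕ) (hB : ∀ j, B j ⊆ range (2 ^ j)) (x N : ℕ) (hN : x ≤ 2 ^ N)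
    (μ : ℝ) (q r : ℕ) :
    |(#{n ∈ below (AA (fun j => 2 ^ j) B) x | n % q = r} : ℝ) -
      μ * #(below (AA (fun j => 2 ^ j) B) x)| ≤
      ∑ j ∈ range N, |(#{b ∈ B j | b < x - 2 ^ j ∧ (2 ^ j + b) % q = r} : ℝ) -
        μ * #{b ∈ B j | b < x - 2 ^ j}| := by
  rw [card_below B hB x N hN (fun n => n % q = r), card_below' B hB x N hN]
  push_cast
  rw [mul_sum, ← sum_sub_distrib]
  exact abs_sum_le_sum_abs _ _

/-- a crude bound for the discrepancy of one block -/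
theorem crude (B : Finset ℕ) (j : ℕ) (hB : B ⊆ range (2 ^ j)) (y q r : ℕ) (μ : ℝ) :
    |(#{b ∈ B | b < y ∧ (2 ^ j + b) % q = r} : ℝ) - μ * #{b ∈ B | b < y}| ≤
      (1 + |μ|) * 2 ^ j := by
  have h0 : #B ≤ 2 ^ j := by simpa using card_le_card hB
  have h1 : (#{b ∈ B | b < y ∧ (2 ^ j + b) % q = r} : ℝ) ≤ 2 ^ j := by
    exact_mod_cast (card_filter_le _ _).trans h0
  have h2 : (#{b ∈ B | b < y} : ℝ) ≤ 2 ^ j := by
    exact_mod_cast (card_filter_le _ _).trans h0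
  calc |(#{b ∈ B | b < y ∧ (2 ^ j + b) % q = r} : ℝ) - μ * #{b ∈ B | b < y}|
      ≤ |(#{b ∈ B | b < y ∧ (2 ^ j + b) % q = r} : ℝ)| + |μ * #{b ∈ B | b < y}| := abs_sub _ _
    _ ≤ 2 ^ j + |μ| * 2 ^ j := by
        rw [abs_mul, Nat.abs_cast, Nat.abs_cast]
        exact add_le_add h1 (mul_le_mul_of_nonneg_left h2 (abs_nonneg _))
    _ = (1 + |μ|) * 2 ^ j := by ring

/-- the sum of the square roots -/
theorem sum_sqrt (N : ℕ) : ∑ j ∈ range N, √((2 : ℝ) ^ j) ≤ 6 * √((2 : ℝ) ^ N) := by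
  refine Pool.Agent.Helper5.RC.geo (v := fun j => √((2 : ℝ) ^ j)) (fun j => Real.sqrt_nonneg _)
    (fun j => ?_) N
  have h := Pool.Agent.Helper5.RC.sqrt_step chain_two j
  simpa using h

/-- **the limit**: from the blocks to the local distribution -/
theorem tendsto_dist (B : ℕ → Finset ℕ) (hB : ∀ j, B j ⊆ range (2 ^ j)) (c : ℝ) (hc : 0 < c)
    (hcount : ∀ x : ℕ, 2 ≤ x → c * √x ≤ #(below (AA (fun j => 2 ^ j) B) x)) (μ : ℝ) (q r : ℕ)
    (hd : ∀ ε : ℝ, 0 < ε → ∀ᶠ j in atTop, ∀ y : ℕ,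
      |(#{b ∈ B j | b < y ∧ (2 ^ j + b) % q = r} : ℝ) - μ * #{b ∈ B j | b < y}|
        ≤ ε * √((2 : ℝ) ^ j)) :
    Tendsto (fun x : ℕ => (#{n ∈ below (AA (fun j => 2 ^ j) B) x | n % q = r} : ℝ) /
      #(below (AA (fun j => 2 ^ j) B) x)) atTop (nhds μ) := by
  rw [Metric.tendsto_atTop]
  intro δ hδ
  obtain ⟨ε, hε⟩ : ∃ ε, ε = c * δ / 48 := ⟨_, rfl⟩
  have hε0 : 0 < ε := by rw [hε]; positivity
  obtain ⟨j₁, hj₁⟩ := eventually_atTop.1 (hd ε hε0)
  obtain ⟨K, hK⟩ : ∃ K, K = ∑ j ∈ range j₁, (1 + |μ|) * (2 : ℝ) ^ j := ⟨_, rfl⟩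
  have hK0 : 0 ≤ K := by
    rw [hK]
    exact sum_nonneg fun j _ => by positivity
  -- the bound of the discrepancy
  have hmain : ∀ x : ℕ, 2 ≤ x → |(#{n ∈ below (AA (fun j => 2 ^ j) B) x | n % q = r} : ℝ) -
      μ * #(below (AA (fun j => 2 ^ j) B) x)| ≤ K + 12 * ε * √x := by
    intro x hx
    obtain ⟨N, hN1, hN2⟩ : ∃ N : ℕ, x ≤ 2 ^ N ∧ 2 ^ N ≤ 2 * x := by
      refine ⟨Nat.log 2 x + 1, (Nat.lt_pow_succ_log_self (by norm_num) x).le, ?_⟩
      rw [pow_succ, mul_comm]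
      exact Nat.mul_le_mul_left 2 (Nat.pow_log_le_self 2 (by omega))
    refine (disc_le B hB x N hN1 μ q r).trans ?_
    have h1 : ∀ j ∈ range N, |(#{b ∈ B j | b < x - 2 ^ j ∧ (2 ^ j + b) % q = r} : ℝ) -
        μ * #{b ∈ B j | b < x - 2 ^ j}| ≤
        (if j < j₁ then (1 + |μ|) * (2 : ℝ) ^ j else 0) + ε * √((2 : ℝ) ^ j) := by
      intro j _
      by_cases hj : j < j₁
      · rw [if_pos hj]
        have h2 := crude (B j) j (hB j) (x - 2 ^ j) q r μ
        have h3 : 0 ≤ ε * √((2 : ℝ) ^ j) := by positivity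
        linarith
      · rw [if_neg hj]
        have h2 := hj₁ j (not_lt.1 hj) (x - 2 ^ j)
        linarith
    refine (sum_le_sum h1).trans ?_
    rw [sum_add_distrib, ← mul_sum]
    have h2 : ∑ j ∈ range N, (if j < j₁ then (1 + |μ|) * (2 : ℝ) ^ j else 0) ≤ K := by
      rw [hK, ← sum_filter]
      refine sum_le_sum_of_subset_of_nonneg ?_ fun j _ _ => by positivity
      intro j hj
      rw [mem_filter] at hj
      exact mem_range.2 hj.2
    have h3 : ∑ j ∈ range N, √((2 : ℝ) ^ j) ≤ 12 * √x := by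
      refine (sum_sqrt N).trans ?_
      have h4 : √((2 : ℝ) ^ N) ≤ 2 * √x := by
        have h5 : (2 : ℝ) ^ N ≤ 4 * x := by
          have : ((2 ^ N : ℕ) : ℝ) ≤ ((2 * x : ℕ) : ℝ) := by exact_mod_cast hN2
          push_cast at this
          have h6 : (0 : ℝ) ≤ x := Nat.cast_nonneg x
          linarith
        calc √((2 : ℝ) ^ N) ≤ √(4 * x) := Real.sqrt_le_sqrt h5
          _ = √4 * √x := Real.sqrt_mul (by norm_num) _
          _ = 2 * √x := by
            rw [show (4 : ℝ) = 2 ^ 2 by norm_num, Real.sqrt_sq (by norm_num)]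
      linarith
    have h4 := mul_le_mul_of_nonneg_left h3 hε0.le
    linarith
  -- the limit
  obtain ⟨X, hX⟩ : ∃ X : ℕ, 4 * K / (c * δ) ≤ X := exists_nat_ge _
  refine ⟨max 2 (X ^ 2 + 1), fun x hx => ?_⟩
  have hx2 : 2 ≤ x := (le_max_left _ _).trans hx
  have hxX : X ^ 2 + 1 ≤ x := (le_max_right _ _).trans hx
  have hx0 : (0 : ℝ) < x := by exact_mod_cast (by omega : 0 < x)
  have hsx : 0 < √(x : ℝ) := Real.sqrt_pos.2 hx0
  have hXs : (X : ℝ) ≤ √x := by
    apply Real.le_sqrt_of_sq_le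
    exact_mod_cast (by omega : X ^ 2 ≤ x)
  have hcnt := hcount x hx2
  have hpos : (0 : ℝ) < #(below (AA (fun j => 2 ^ j) B) x) := lt_of_lt_of_le (by positivity) hcnt
  rw [Real.dist_eq]
  have h1 : (#{n ∈ below (AA (fun j => 2 ^ j) B) x | n % q = r} : ℝ) /
      #(below (AA (fun j => 2 ^ j) B) x) - μ =
      ((#{n ∈ below (AA (fun j => 2 ^ j) B) x | n % q = r} : ℝ) -
      μ * #(below (AA (fun j => 2 ^ j) B) x)) / #(below (AA (fun j => 2 ^ j) B) x) := by
    field_simp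
  rw [h1, abs_div, abs_of_pos hpos, div_lt_iff₀ hpos]
  refine (hmain x hx2).trans_lt ?_
  have h2 : K ≤ c * δ / 4 * √x := by
    have h3 : 4 * K / (c * δ) ≤ √x := hX.trans hXs
    rw [div_le_iff₀ (by positivity)] at h3
    linarith
  have h3 : δ * (c * √x) ≤ δ * #(below (AA (fun j => 2 ^ j) B) x) :=
    mul_le_mul_of_nonneg_left hcnt hδ.le
  have h4 : 12 * ε * √x = c * δ / 4 * √x := by rw [hε]; ring
  have h5 : 0 < c * δ * √x := by positivity
  linarith

/-- the two ways of counting the representations -/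
theorem rep_eq (A : Set ℕ) (n : ℕ) :
    Pool.Agent.Helper25.RC.rep A n = Pool.Agent.Helper72.NS.rep A n := by
  classical
  unfold Pool.Agent.Helper25.RC.rep Pool.Agent.Helper72.NS.rep
  rw [← Set.ncard_coe_finset]
  congr 1
  ext p
  simp only [coe_filter, HasAntidiagonal.mem_antidiagonal, Set.mem_ofPred_eq]
  tauto

theorem card_below_eq_num (A : Set ℕ) (x : ℕ) :
    #(below A x) = Pool.Agent.Helper72.NS.num A x := by
  unfold Pool.Agent.Helper72.NS.num
  rw [← Set.ncard_coe_finset]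
  congr 1
  ext n
  rw [mem_coe, mem_below, Set.mem_inter_iff, Set.mem_Iio]
  exact And.comm

/-- the block `{0}` -/
theorem sol_zero (j : ℕ) : ((sol (2 ^ j) {0}).card : ℝ) ≤ 1 := by
  have h : (sol (2 ^ j) {0}).card ≤ ((({0} : Finset ℕ) ×ˢ {0}) ×ˢ (({0} : Finset ℕ) ×ˢ {0})).card :=
    card_le_card (filter_subset _ _)
  simp only [card_product, card_singleton, mul_one] at h
  exact_mod_cast h

/-- **SLOW + UNION** -/
theorem union (mu : ℕ → ℕ → ℝ) (D : ℝ)
    (hS : ∀ s : ℕ, ∀ᶠ j : ℕ in atTop, ∃ B : Finset ℕ, Good mu D s j B) :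
    ∃ (A : Set ℕ) (c C : ℝ), 0 < c ∧
      (∀ x : ℕ, 2 ≤ x → c * √x ≤ #(below A x)) ∧
      (∀ x : ℕ, ∑ n ∈ range x, (Pool.Agent.Helper25.RC.rep A n : ℝ) ^ 2 ≤ C * x) ∧
      ∀ q : ℕ, 1 ≤ q → ∀ r < q,
        Tendsto (fun x : ℕ => (#{n ∈ below A x | n % q = r} : ℝ) / #(below A x)) atTop
          (nhds (mu q r)) := by
  classical
  -- the slow function
  obtain ⟨P, hP⟩ : ∃ P : ℕ → ℕ → Prop, P = fun s j => ∃ B : Finset ℕ, Good mu D s j B := ⟨_, rfl⟩
  have hPev : ∀ s, ∀ᶠ j in atTop, P s j := by rw [hP]; exact hS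
  obtain ⟨σ, hσ⟩ : ∃ σ : ℕ → ℕ, σ = fun j => Nat.findGreatest (fun s => P s j) j := ⟨_, rfl⟩
  obtain ⟨J, hJ⟩ := eventually_atTop.1 (hPev 0)
  have hσP : ∀ j, J ≤ j → P (σ j) j := by
    intro j hj
    rw [hσ]
    exact Nat.findGreatest_spec (P := fun s => P s j) (Nat.zero_le j) (hJ j hj)
  have hσlim : ∀ s, ∀ᶠ j in atTop, s ≤ σ j := by
    intro s
    filter_upwards [hPev s, eventually_ge_atTop s] with j h1 h2
    rw [hσ]
    exact Nat.le_findGreatest h2 h1
  -- the blocks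
  have hex : ∀ j, ∃ B : Finset ℕ, (J ≤ j → Good mu D (σ j) j B) ∧ (¬ J ≤ j → B = {0}) := by
    intro j
    by_cases hj : J ≤ j
    · have h1 := hσP j hj
      rw [hP] at h1
      obtain ⟨B, hB⟩ := h1
      exact ⟨B, fun _ => hB, fun h => absurd hj h⟩
    · exact ⟨{0}, fun h => absurd h hj, fun _ => rfl⟩
  choose B hB1 hB2 using hex
  have hBr : ∀ j, B j ⊆ range (2 ^ j) := by
    intro j
    by_cases hj : J ≤ j
    · exact (hB1 j hj).1
    · rw [hB2 j hj, singleton_subset_iff, mem_range]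
      positivity
  have hE : ∀ j, ((sol ((fun j => 2 ^ j) j) (B j)).card : ℝ) ≤
      max D 1 * (((fun j => 2 ^ j) j : ℕ) : ℝ) := by
    intro j
    push_cast
    by_cases hj : J ≤ j
    · exact (hB1 j hj).2.2.1.trans (mul_le_mul_of_nonneg_right (le_max_left _ _) (by positivity))
    · rw [hB2 j hj]
      refine (sol_zero j).trans ?_
      have h1 : (1 : ℝ) ≤ 2 ^ j := one_le_pow₀ (by norm_num)
      have h2 : (1 : ℝ) ≤ max D 1 := le_max_right _ _
      nlinarith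
  have hcard : ∀ j, (((fun j => 2 ^ j) j : ℕ) : ℝ) ≤ max 16 ((2 : ℝ) ^ J) * (#(B j) : ℝ) ^ 2 := by
    intro j
    push_cast
    by_cases hj : J ≤ j
    · have h1 := (hB1 j hj).2.2.2.1
      have h2 : (2 : ℝ) ^ j ≤ 16 * (#(B j) : ℝ) ^ 2 := by
        have h3 := pow_le_pow_left₀ (Real.sqrt_nonneg _) h1 2
        rw [Real.sq_sqrt (by positivity)] at h3
        linarith
      exact h2.trans (mul_le_mul_of_nonneg_right (le_max_left _ _) (by positivity))
    · rw [hB2 j hj, card_singleton]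
      have h1 : (2 : ℝ) ^ j ≤ 2 ^ J := pow_le_pow_right₀ (by norm_num) (by omega)
      have h2 := le_max_right (16 : ℝ) ((2 : ℝ) ^ J)
      push_cast
      linarith
  -- the count
  obtain ⟨τ, hτ⟩ : ∃ τ, τ = max 16 ((2 : ℝ) ^ J) := ⟨_, rfl⟩
  have hτ0 : 0 < τ := by rw [hτ]; exact lt_of_lt_of_le (by norm_num) (le_max_left _ _)
  rw [← hτ] at hcard
  have hcount : ∀ x : ℕ, 2 ≤ x → 1 / √(4 * τ) * √x ≤ #(below (AA (fun j => 2 ^ j) B) x) := by
    intro x hx
    have h1 := Pool.Agent.Helper5.RC.many chain_two (Q := 2)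
      (fun j => by show 2 ^ (j + 1) ≤ 2 * 2 ^ j; rw [pow_succ]; omega) hBr hcard x hx
    rw [← card_below_eq_num] at h1
    have h2 : √(x : ℝ) ≤ √(4 * τ) * #(below (AA (fun j => 2 ^ j) B) x) := by
      rw [← Real.sqrt_sq (Nat.cast_nonneg (α := ℝ) #(below (AA (fun j => 2 ^ j) B) x)),
        ← Real.sqrt_mul (by positivity)]
      refine Real.sqrt_le_sqrt (h1.trans (le_of_eq ?_))
      push_cast
      ring
    rw [one_div, inv_mul_le_iff₀ (by positivity)]
    exact h2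
  refine ⟨AA (fun j => 2 ^ j) B, 1 / √(4 * τ), 2401 * max D 1, by positivity, hcount, ?_, ?_⟩
  · intro x
    have h1 := Pool.Agent.Helper5.RC.mean_square chain_two hE x
    refine le_trans (le_of_eq ?_) h1
    exact sum_congr rfl fun n _ => by rw [rep_eq]
  · intro q hq r hr
    refine tendsto_dist B hBr _ (by positivity) hcount (mu q r) q r fun ε hε => ?_
    obtain ⟨s, hs⟩ : ∃ s : ℕ, 1 / ε ≤ s := exists_nat_ge _
    filter_upwards [hσlim (max q s), eventually_ge_atTop J] with j h1 h2 y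
    have h3 := (hB1 j h2).2.2.2.2 y q hq ((le_max_left _ _).trans h1) r hr
    refine h3.trans ?_
    have hs0 : (0 : ℝ) < s := lt_of_lt_of_le (by positivity) hs
    have h4 : (s : ℝ) ≤ σ j := by exact_mod_cast (le_max_right _ _).trans h1
    have h5 : (0 : ℝ) < σ j := hs0.trans_le h4
    rw [div_le_iff₀ h5]
    have h6 : 1 ≤ ε * σ j := by
      rw [div_le_iff₀ hε] at hs
      nlinarith
    have h7 : 0 ≤ √((2 : ℝ) ^ j) := Real.sqrt_nonneg _
    nlinarith

end Pool.Agent.Helper80.RC
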