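import Pool.Agent.Helper80.RC.Final

/-!
# The limit distributions of a set with bounded `r`, and of a basis
-/

set_option autoImplicit false

open Finset Filter

namespace Pool.Agent.Helper80.RC.Final

open Pool.Agent.Helper25.RC (below mem_below repF)

/-- the value at `t` of the convolution `mu q * mu q` -/
noncomputable def conv (mu : ℕ → ℕ → ℝ) (q t : ℕ) : ℝ :=
  ∑ p ∈ range q ×ˢ range q with (p.1 + p.2) % q = t, mu q p.1 * mu q p.2

/-- pairs of elements of `S` with sum in a class, counted by classes -/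
theorem pairs_fiber (S : Finset ℕ) {q : ℕ} (hq : 0 < q) (t : ℕ) :
    #{p ∈ S ×ˢ S | (p.1 + p.2) % q = t} =
      ∑ p ∈ range q ×ˢ range q with (p.1 + p.2) % q = t,
        #{n ∈ S | n % q = p.1} * #{n ∈ S | n % q = p.2} := by
  classical
  rw [card_eq_sum_card_fiberwise (f := fun p : ℕ × ℕ => (p.1 % q, p.2 % q))
    (t := (range q ×ˢ range q).filter fun p => (p.1 + p.2) % q = t)]
  · refine sum_congr rfl fun p hp => ?_
    have h5 := (mem_filter.1 hp).2
    rw [← card_product]
    congr 1
    ext ⟨a, b⟩
    obtain ⟨x, y⟩ := p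
    simp only [mem_filter, mem_product, Prod.mk.injEq]
    constructor
    · rintro ⟨⟨⟨h1, h2⟩, _⟩, h3, h4⟩
      exact ⟨⟨h1, h3⟩, h2, h4⟩
    · rintro ⟨⟨h1, h3⟩, h2, h4⟩
      refine ⟨⟨⟨h1, h2⟩, ?_⟩, h3, h4⟩
      rw [Nat.add_mod, h3, h4]
      exact h5
  · intro p hp
    have h5 := (mem_filter.1 (mem_coe.1 hp)).2
    rw [mem_coe, mem_filter, mem_product, mem_range, mem_range]
    refine ⟨⟨Nat.mod_lt _ hq, Nat.mod_lt _ hq⟩, ?_⟩
    rw [← Nat.add_mod]
    exact h5

/-- pairs of elements of `S` with sum in a class, counted by sums -/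
theorem pairs_sum (S : Finset ℕ) {x : ℕ} (hS : S ⊆ range x) (q t : ℕ) :
    #{p ∈ S ×ˢ S | (p.1 + p.2) % q = t} = ∑ n ∈ range (2 * x) with n % q = t, repF S n := by
  classical
  rw [card_eq_sum_card_fiberwise (f := fun p : ℕ × ℕ => p.1 + p.2)
    (t := (range (2 * x)).filter fun n => n % q = t)]
  · refine sum_congr rfl fun n hn => ?_
    have h5 := (mem_filter.1 hn).2
    unfold repF
    congr 1
    ext p
    simp only [mem_filter]
    constructor
    · rintro ⟨⟨h1, _⟩, h2⟩
      exact ⟨h1, h2⟩
    · rintro ⟨h1, h2⟩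
      exact ⟨⟨h1, by rw [h2]; exact h5⟩, h2⟩
  · intro p hp
    obtain ⟨h1, h2⟩ := mem_filter.1 (mem_coe.1 hp)
    rw [mem_product] at h1
    have h3 := mem_range.1 (hS h1.1)
    have h4 := mem_range.1 (hS h1.2)
    rw [mem_coe, mem_filter, mem_range]
    refine ⟨?_, h2⟩
    show p.1 + p.2 < 2 * x
    omega

/-- the convolution of the proportions -/
theorem conv_ratio (A : Set ℕ) (x : ℕ) {q : ℕ} (hq : 0 < q) (t : ℕ) :
    ∑ p ∈ range q ×ˢ range q with (p.1 + p.2) % q = t,
      ((count A x q p.1 : ℝ) / count A x 1 0) * ((count A x q p.2 : ℝ) / count A x 1 0) =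
      (#{p ∈ below A x ×ˢ below A x | (p.1 + p.2) % q = t} : ℝ) / (count A x 1 0 : ℝ) ^ 2 := by
  rw [pairs_fiber (below A x) hq t]
  push_cast
  rw [sum_div]
  refine sum_congr rfl fun p _ => ?_
  rw [count_eq, count_eq]
  rw [div_mul_div_comm, sq]

/-- the limit of the convolution -/
theorem conv_tendsto {A : Set ℕ} {x : ℕ → ℕ} {mu : ℕ → ℕ → ℝ} (h : Follows A x mu) {q : ℕ}
    (hq : 0 < q) (t : ℕ) :
    Tendsto (fun i => (#{p ∈ below A (x i) ×ˢ below A (x i) | (p.1 + p.2) % q = t} : ℝ) /
      (count A (x i) 1 0 : ℝ) ^ 2) atTop (nhds (conv mu q t)) := by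
  unfold conv
  have h1 : Tendsto (fun i => ∑ p ∈ range q ×ˢ range q with (p.1 + p.2) % q = t,
      ((count A (x i) q p.1 : ℝ) / count A (x i) 1 0) *
        ((count A (x i) q p.2 : ℝ) / count A (x i) 1 0)) atTop
      (nhds (∑ p ∈ range q ×ˢ range q with (p.1 + p.2) % q = t, mu q p.1 * mu q p.2)) := by
    refine tendsto_finsetSum _ fun p hp => ?_
    have h2 := (mem_filter.1 hp).1
    rw [mem_product, mem_range, mem_range] at h2
    exact (h q hq p.1 h2.1).mul (h q hq p.2 h2.2)
  exact h1.congr fun i => conv_ratio A (x i) hq t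

/-- **upper bound**: if `r ≤ g`, then the density of `mu * mu` is at most `2 g / c²` -/
theorem conv_le {A : Set ℕ} {g : ℕ} (hg : ∀ n, rep A n ≤ g) {c : ℝ} (hc : 0 < c) {x : ℕ → ℕ}
    (hx : StrictMono x) (hA : ∀ i, c * √(x i) ≤ count A (x i) 1 0) {mu : ℕ → ℕ → ℝ}
    (h : Follows A x mu) {q : ℕ} (hq : 0 < q) (t : ℕ) :
    q * conv mu q t ≤ 2 * g / c ^ 2 := by
  have hqR : (0 : ℝ) < q := by exact_mod_cast hq
  have hlim := conv_tendsto h hq t
  have hT : Tendsto (fun i => ((x i : ℕ) : ℝ)) atTop atTop :=
    tendsto_natCast_atTop_atTop.comp hx.tendsto_atTop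
  have hb : Tendsto (fun i => (2 * g / c ^ 2 / q : ℝ) + g / c ^ 2 * (x i : ℝ)⁻¹) atTop
      (nhds ((2 * g / c ^ 2 / q : ℝ) + g / c ^ 2 * 0)) :=
    tendsto_const_nhds.add ((tendsto_inv_atTop_zero.comp hT).const_mul _)
  rw [mul_zero, add_zero] at hb
  have h1 : conv mu q t ≤ 2 * g / c ^ 2 / q := by
    refine le_of_tendsto_of_tendsto hlim hb ?_
    filter_upwards [hT.eventually_ge_atTop 1] with i hi
    have hxi : (0 : ℝ) < x i := by linarith
    have h2 : (#{p ∈ below A (x i) ×ˢ below A (x i) | (p.1 + p.2) % q = t} : ℝ) ≤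
        g * (2 * x i / q + 1) := by
      rw [pairs_sum _ (Pool.Agent.Helper25.RC.below_subset_range A (x i)) q t]
      push_cast
      calc ∑ n ∈ range (2 * x i) with n % q = t, (repF (below A (x i)) n : ℝ)
          ≤ ∑ n ∈ range (2 * x i) with n % q = t, (g : ℝ) := by
            refine sum_le_sum fun n _ => ?_
            have h3 := Pool.Agent.Helper25.RC.repF_below_le A (x i) n
            rw [rep_eq] at h3
            exact_mod_cast h3.trans (hg n)
        _ = #{n ∈ range (2 * x i) | n % q = t} * g := by rw [sum_const, nsmul_eq_mul]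
        _ ≤ (2 * x i / q + 1) * g := by
            refine mul_le_mul_of_nonneg_right ?_ (Nat.cast_nonneg _)
            have h4 := Pool.Agent.Helper38.RC.card_class_range q (2 * x i) t
            have h5 : (#{n ∈ range (2 * x i) | n % q = t} : ℝ) ≤ ((2 * x i / q : ℕ) : ℝ) + 1 := by
              exact_mod_cast h4
            have h6 : ((2 * x i / q : ℕ) : ℝ) ≤ ((2 * x i : ℕ) : ℝ) / q := Nat.cast_div_le
            push_cast at h6
            linarith
        _ = _ := by ring
    have h7 : c ^ 2 * x i ≤ (count A (x i) 1 0 : ℝ) ^ 2 := by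
      have h8 := pow_le_pow_left₀ (by positivity) (hA i) 2
      rwa [mul_pow, Real.sq_sqrt hxi.le] at h8
    have h9 : 0 < (count A (x i) 1 0 : ℝ) ^ 2 := lt_of_lt_of_le (by positivity) h7
    rw [div_le_iff₀ h9]
    refine h2.trans ?_
    calc (g : ℝ) * (2 * x i / q + 1)
        = (2 * g / c ^ 2 / q + g / c ^ 2 * (x i : ℝ)⁻¹) * (c ^ 2 * x i) := by
          field_simp
      _ ≤ _ := mul_le_mul_of_nonneg_left h7 (by positivity)
  rw [le_div_iff₀ hqR] at h1
  linarith

/-- **lower bound**: if moreover `r(n) ≥ 1` for all large `n`, then the density of `mu * mu` is at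
least `1 / (2 g)` -/
theorem le_conv {A : Set ℕ} {g n₀ : ℕ} (hg : ∀ n, rep A n ≤ g) (h1 : ∀ n, n₀ ≤ n → 1 ≤ rep A n)
    {x : ℕ → ℕ} (hx : StrictMono x) {mu : ℕ → ℕ → ℝ}
    (h : Follows A x mu) {q : ℕ} (hq : 0 < q) {t : ℕ} (ht : t < q) :
    1 ≤ 2 * g * (q * conv mu q t) := by
  have hqR : (0 : ℝ) < q := by exact_mod_cast hq
  have hg0 : 0 < g := lt_of_lt_of_le one_pos ((h1 n₀ le_rfl).trans (hg n₀))
  have hgR : (0 : ℝ) < g := by exact_mod_cast hg0
  have hlim := conv_tendsto h hq t
  have hT : Tendsto (fun i => ((x i : ℕ) : ℝ)) atTop atTop :=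
    tendsto_natCast_atTop_atTop.comp hx.tendsto_atTop
  have hb : Tendsto (fun i => (1 / (2 * g * q) : ℝ) - (n₀ + 1) / (2 * g) * (x i : ℝ)⁻¹) atTop
      (nhds ((1 / (2 * g * q) : ℝ) - (n₀ + 1) / (2 * g) * 0)) :=
    tendsto_const_nhds.sub ((tendsto_inv_atTop_zero.comp hT).const_mul _)
  rw [mul_zero, sub_zero] at hb
  have h2 : 1 / (2 * g * q) ≤ conv mu q t := by
    refine le_of_tendsto_of_tendsto hb hlim ?_
    filter_upwards [hT.eventually_ge_atTop (n₀ + 1 : ℝ)] with i hi
    have hxi : (0 : ℝ) < x i := by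
      have : (0 : ℝ) ≤ n₀ := Nat.cast_nonneg _
      linarith
    have hSr := Pool.Agent.Helper25.RC.below_subset_range A (x i)
    -- the number of pairs is at most `2 g x`
    have hup : (count A (x i) 1 0 : ℝ) ^ 2 ≤ 2 * g * x i := by
      have h3 := pairs_sum (below A (x i)) hSr 1 0
      have h4 : #{p ∈ below A (x i) ×ˢ below A (x i) | (p.1 + p.2) % 1 = 0} =
          count A (x i) 1 0 ^ 2 := by
        rw [filter_true_of_mem fun p _ => Nat.mod_one _, card_product, count_one, sq]
      rw [h4] at h3
      have h5 : count A (x i) 1 0 ^ 2 ≤ 2 * x i * g := by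
        rw [h3]
        calc ∑ n ∈ range (2 * x i) with n % 1 = 0, repF (below A (x i)) n
            ≤ ∑ n ∈ range (2 * x i) with n % 1 = 0, g := by
              refine sum_le_sum fun n _ => ?_
              have h3 := Pool.Agent.Helper25.RC.repF_below_le A (x i) n
              rw [rep_eq] at h3
              exact h3.trans (hg n)
          _ = #{n ∈ range (2 * x i) | n % 1 = 0} * g := by rw [sum_const, smul_eq_mul]
          _ ≤ 2 * x i * g := by
              refine Nat.mul_le_mul_right g ?_
              refine (card_filter_le _ _).trans (le_of_eq ?_)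
              rw [card_range]
      have h6 : ((count A (x i) 1 0 ^ 2 : ℕ) : ℝ) ≤ ((2 * x i * g : ℕ) : ℝ) := by
        exact_mod_cast h5
      push_cast at h6
      linarith
    -- the number of pairs with sum in the class is at least `x / q - n₀ - 1`
    have hlow : (x i : ℝ) / q - (n₀ + 1) ≤
        (#{p ∈ below A (x i) ×ˢ below A (x i) | (p.1 + p.2) % q = t} : ℝ) := by
      rw [pairs_sum _ hSr q t]
      have h3 : #{n ∈ range (x i) | n₀ ≤ n ∧ n % q = t} ≤
          ∑ n ∈ range (2 * x i) with n % q = t, repF (below A (x i)) n := by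
        calc #{n ∈ range (x i) | n₀ ≤ n ∧ n % q = t}
            = ∑ n ∈ range (x i) with (n₀ ≤ n ∧ n % q = t), 1 := by
              rw [sum_const, smul_eq_mul, mul_one]
          _ ≤ ∑ n ∈ range (x i) with (n₀ ≤ n ∧ n % q = t), repF (below A (x i)) n := by
              refine sum_le_sum fun n hn => ?_
              rw [mem_filter, mem_range] at hn
              have h4 := h1 n hn.2.1
              have h5 : rep A n ≤ repF (below A (x i)) n := by
                classical
                unfold rep repF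
                rw [← Set.ncard_coe_finset]
                refine Set.ncard_le_ncard ?_ (finite_toSet _)
                rintro ⟨a, b⟩ ⟨h6, h7, h8⟩
                simp only at h6 h7 h8
                rw [mem_coe, mem_filter, mem_product, mem_below, mem_below]
                refine ⟨⟨⟨?_, h6⟩, ?_, h7⟩, h8⟩
                · show a < x i
                  omega
                · show b < x i
                  omega
              exact h4.trans h5
          _ ≤ _ := by
              refine sum_le_sum_of_subset_of_nonneg ?_ fun _ _ _ => Nat.zero_le _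
              intro n hn
              rw [mem_filter, mem_range] at hn ⊢
              exact ⟨by omega, hn.2.2⟩
      have h4 : (x i : ℝ) / q - (n₀ + 1) ≤ (#{n ∈ range (x i) | n₀ ≤ n ∧ n % q = t} : ℝ) := by
        have h5 : x i / q ≤ #{n ∈ range (x i) | n % q = t} := by
          have h6 : (range (x i / q)).card ≤ #{n ∈ range (x i) | n % q = t} := by
            refine card_le_card_of_injOn (fun j => t + q * j) ?_ ?_
            · intro j hj
              rw [mem_coe, mem_range] at hj
              rw [mem_coe, mem_filter, mem_range, Nat.add_mul_mod_self_left,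
                Nat.mod_eq_of_lt ht]
              refine ⟨?_, rfl⟩
              have h7 : q * (j + 1) ≤ x i := by
                calc q * (j + 1) ≤ q * (x i / q) := Nat.mul_le_mul_left q hj
                  _ ≤ x i := Nat.mul_div_le _ _
              calc t + q * j < q + q * j := by omega
                _ = q * (j + 1) := by ring
                _ ≤ x i := h7
            · intro a _ b _ hab
              exact Nat.eq_of_mul_eq_mul_left hq (Nat.add_left_cancel hab)
          rwa [card_range] at h6
        have h6 : #{n ∈ range (x i) | n % q = t} ≤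
            #{n ∈ range (x i) | n₀ ≤ n ∧ n % q = t} + n₀ := by
          classical
          have h7 : ({n ∈ range (x i) | n % q = t} : Finset ℕ) ⊆
              ({n ∈ range (x i) | n₀ ≤ n ∧ n % q = t} : Finset ℕ) ∪ range n₀ := by
            intro n hn
            rw [mem_filter] at hn
            rw [mem_union, mem_filter]
            by_cases hn0 : n₀ ≤ n
            · exact Or.inl ⟨hn.1, hn0, hn.2⟩
            · exact Or.inr (mem_range.2 (not_le.1 hn0))
          refine (card_le_card h7).trans ((card_union_le _ _).trans ?_)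
          rw [card_range]
        have h7 : (x i : ℝ) / q < (x i / q : ℕ) + 1 := by
          rw [div_lt_iff₀ hqR]
          have h8 := Nat.lt_mul_div_succ (x i) hq
          have h9 : ((x i : ℕ) : ℝ) < ((q * (x i / q + 1) : ℕ) : ℝ) := by exact_mod_cast h8
          push_cast at h9
          linarith
        have h8 : ((x i / q : ℕ) : ℝ) ≤ (#{n ∈ range (x i) | n₀ ≤ n ∧ n % q = t} : ℝ) + n₀ := by
          exact_mod_cast h5.trans h6
        linarith
      have h5 : (#{n ∈ range (x i) | n₀ ≤ n ∧ n % q = t} : ℝ) ≤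
          ((∑ n ∈ range (2 * x i) with n % q = t, repF (below A (x i)) n : ℕ) : ℝ) := by
        exact_mod_cast h3
      linarith
    have hcpos : 0 < (count A (x i) 1 0 : ℝ) ^ 2 := by
      by_contra hcon
      have h0 : (count A (x i) 1 0 : ℝ) ^ 2 = 0 := le_antisymm (not_lt.1 hcon) (sq_nonneg _)
      have h01 : count A (x i) 1 0 = 0 := by
        have := pow_eq_zero_iff (two_ne_zero) |>.1 h0
        exact_mod_cast this
      -- then `A` has no element below `x i`, so `r(n₀) = 0`
      have h3 := h1 n₀ le_rfl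
      have h4 : rep A n₀ = 0 := by
        unfold rep
        rw [Set.ncard_eq_zero (Set.Finite.subset (finite_toSet (antidiagonal n₀))
          fun p hp => by rw [mem_coe, HasAntidiagonal.mem_antidiagonal]; exact hp.2.2)]
        rw [Set.eq_empty_iff_forall_notMem]
        rintro ⟨a, b⟩ ⟨h6, h7, h8⟩
        simp only at h6 h7 h8
        have h9 : a ∈ below A (x i) := by
          rw [mem_below]
          refine ⟨?_, h6⟩
          have : (n₀ : ℝ) < x i := by linarith
          have : n₀ < x i := by exact_mod_cast this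
          omega
        rw [← count_one, card_eq_zero] at h01
        rw [h01] at h9
        exact absurd h9 (notMem_empty a)
      omega
    rw [le_div_iff₀ hcpos]
    by_cases hs : (0 : ℝ) ≤ 1 / (2 * g * q) - (n₀ + 1) / (2 * g) * (x i : ℝ)⁻¹
    · refine le_trans ?_ hlow
      calc (1 / (2 * g * q) - (n₀ + 1) / (2 * g) * (x i : ℝ)⁻¹) * (count A (x i) 1 0 : ℝ) ^ 2
          ≤ (1 / (2 * g * q) - (n₀ + 1) / (2 * g) * (x i : ℝ)⁻¹) * (2 * g * x i) :=
            mul_le_mul_of_nonneg_left hup hs
        _ = _ := by field_simp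
    · have h3 : (1 / (2 * g * q) - (n₀ + 1) / (2 * g) * (x i : ℝ)⁻¹) *
          (count A (x i) 1 0 : ℝ) ^ 2 ≤ 0 :=
        mul_nonpos_of_nonpos_of_nonneg (not_le.1 hs).le hcpos.le
      exact h3.trans (Nat.cast_nonneg _)
  rw [div_le_iff₀ (by positivity)] at h2
  linarith

end Pool.Agent.Helper80.RC.Final
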