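import Pool.Agent.Helper80.RC.Suff

/-!
# Limit distributions exist
-/

set_option autoImplicit false

open Finset Filter

namespace Pool.Agent.Helper80.RC

open Pool.Agent.Helper25.RC (below mem_below)

/-- the proportion of the elements below `x` in the class `r` modulo `q` -/
noncomputable def ratio (A : Set ℕ) (x q r : ℕ) : ℝ :=
  (#{n ∈ below A x | n % q = r} : ℝ) / #(below A x)

theorem ratio_nonneg (A : Set ℕ) (x q r : ℕ) : 0 ≤ ratio A x q r :=
  div_nonneg (Nat.cast_nonneg _) (Nat.cast_nonneg _)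

theorem ratio_le_one (A : Set ℕ) (x q r : ℕ) : ratio A x q r ≤ 1 := by
  unfold ratio
  refine div_le_one_of_le₀ ?_ (Nat.cast_nonneg _)
  exact_mod_cast card_filter_le _ _

theorem ratio_one (A : Set ℕ) (x : ℕ) (hx : 0 < #(below A x)) : ratio A x 1 0 = 1 := by
  unfold ratio
  have h : ({n ∈ below A x | n % 1 = 0} : Finset ℕ) = below A x :=
    filter_true_of_mem fun n _ => Nat.mod_one n
  rw [h]
  exact div_self (by exact_mod_cast hx.ne')

theorem ratio_compat (A : Set ℕ) (x q k : ℕ) (hk : 0 < k) (hq : 0 < q) (r : ℕ) :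
    ratio A x q r = ∑ s ∈ range (q * k) with s % q = r, ratio A x (q * k) s := by
  unfold ratio
  rw [← sum_div]
  congr 1
  rw [← Nat.cast_sum]
  congr 1
  have h1 := card_eq_sum_card_fiberwise (f := fun n => n % (q * k))
    (s := ({n ∈ below A x | n % q = r} : Finset ℕ))
    (t := (range (q * k)).filter (fun s => s % q = r)) (by
      intro n hn
      have h2 := (mem_filter.1 (mem_coe.1 hn)).2
      refine mem_coe.2 (mem_filter.2 ⟨mem_range.2 (Nat.mod_lt _ (Nat.mul_pos hq hk)), ?_⟩)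
      rw [Nat.mod_mod_of_dvd _ (dvd_mul_right q k)]
      exact h2)
  rw [h1]
  refine sum_congr rfl fun s hs => ?_
  congr 1
  ext n
  simp only [mem_filter]
  constructor
  · rintro ⟨⟨h2, _⟩, h4⟩
    exact ⟨h2, h4⟩
  · rintro ⟨h2, h4⟩
    refine ⟨⟨h2, ?_⟩, h4⟩
    have h5 := (mem_filter.1 hs).2
    rw [← h4, Nat.mod_mod_of_dvd _ (dvd_mul_right q k)] at h5
    exact h5

/-- **limit distributions exist** along a subsequence of every sequence `y` with `A` nonempty
below `y i` -/
theorem exists_limit (A : Set ℕ) (y : ℕ → ℕ) (hy : ∀ i, 0 < #(below A (y i))) :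
    ∃ (φ : ℕ → ℕ) (mu : ℕ → ℕ → ℝ), StrictMono φ ∧ Compatible mu ∧
      ∀ q : ℕ, 0 < q → ∀ r < q, Tendsto (fun i => ratio A (y (φ i)) q r) atTop (nhds (mu q r)) := by
  have hK : IsCompact (Set.pi Set.univ fun _ : ℕ => Set.pi Set.univ fun _ : ℕ =>
      Set.Icc (0 : ℝ) 1) :=
    isCompact_univ_pi fun _ => isCompact_univ_pi fun _ => isCompact_Icc
  obtain ⟨mu, _, φ, hφ, hlim⟩ := hK.tendsto_subseq (x := fun i q r => ratio A (y i) q r)
    fun i => by
      intro q _ r _
      exact ⟨ratio_nonneg A (y i) q r, ratio_le_one A (y i) q r⟩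
  have hlim' : ∀ q r, Tendsto (fun i => ratio A (y (φ i)) q r) atTop (nhds (mu q r)) := by
    intro q r
    have h1 := (tendsto_pi_nhds.1 (tendsto_pi_nhds.1 hlim q)) r
    exact h1
  refine ⟨φ, mu, hφ, ⟨?_, fun q _ r _ => ?_, fun q k hq hk r _ => ?_⟩, fun q _ r _ => hlim' q r⟩
  · refine tendsto_nhds_unique (hlim' 1 0) ?_
    refine tendsto_const_nhds.congr fun i => ?_
    exact (ratio_one A (y (φ i)) (hy (φ i))).symm
  · exact ge_of_tendsto' (hlim' q r) fun i => ratio_nonneg A (y (φ i)) q r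
  · refine tendsto_nhds_unique (hlim' q r) ?_
    have h1 := tendsto_finsetSum ((range (q * k)).filter (fun s => s % q = r))
      fun s _ => hlim' (q * k) s
    refine h1.congr fun i => ?_
    exact (ratio_compat A (y (φ i)) q k hk hq r).symm

end Pool.Agent.Helper80.RC
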