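import Mathlib

/-!
# The deterministic part of the discrepancy

A finite set `B` in `k` windows of length `W`, with at most `n r` elements of the class
`M + b = r` modulo `q` in every window, and in total at most `E` elements less than
`∑_w ∑_r n r`, is distributed modulo every divisor `q₀` of `q`, for every cut `y`, as `n` is.
-/

set_option autoImplicit false

open Finset

namespace Pool.Agent.Helper80.RC

/-- the elements of the cell (window `w`, class `r`) -/
def cell (B : Finset ℕ) (M W q w r : ℕ) : Finset ℕ := {b ∈ B | b / W = w ∧ (M + b) % q = r}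

/-- counting by cells -/
theorem card_cells (B : Finset ℕ) (M W q k : ℕ) (hq : 0 < q) (hB : ∀ b ∈ B, b / W < k)
    (p : ℕ → Prop) [DecidablePred p] :
    #{b ∈ B | p b} = ∑ w ∈ range k, ∑ r ∈ range q, #{b ∈ cell B M W q w r | p b} := by
  classical
  have h1 := card_eq_sum_card_fiberwise (f := fun b => (b / W, (M + b) % q))
    (s := ({b ∈ B | p b} : Finset ℕ)) (t := range k ×ˢ range q) (by
      intro b hb
      have h2 := (mem_filter.1 (mem_coe.1 hb)).1
      rw [coe_product, Set.mem_prod]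
      exact ⟨mem_coe.2 (mem_range.2 (hB b h2)), mem_coe.2 (mem_range.2 (Nat.mod_lt _ hq))⟩)
  rw [h1, sum_product]
  refine sum_congr rfl fun w _ => sum_congr rfl fun r _ => ?_
  congr 1
  ext b
  simp only [mem_filter, cell, Prod.mk.injEq]
  tauto

/-- the part of a sum of defects -/
theorem defect_le {ι : Type} (s t : Finset ι) (hts : t ⊆ s) (a n : ι → ℝ)
    (h : ∀ i ∈ s, a i ≤ n i) :
    ∑ i ∈ t, n i - ∑ i ∈ t, a i ≤ ∑ i ∈ s, n i - ∑ i ∈ s, a i := by
  rw [← sum_sub_distrib, ← sum_sub_distrib]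
  exact sum_le_sum_of_subset_of_nonneg hts fun i hi _ => sub_nonneg.2 (h i hi)

/-- bounds for the number of elements below the cut with a property `P` of the class -/
theorem count_bounds (B : Finset ℕ) (M W q k E : ℕ) (hW : 0 < W) (hq : 0 < q)
    (hB : ∀ b ∈ B, b / W < k) (n : ℕ → ℕ)
    (hup : ∀ w < k, ∀ r < q, #(cell B M W q w r) ≤ n r)
    (hlow : k * ∑ r ∈ range q, n r ≤ #B + E) (y : ℕ) (P : ℕ → Prop) [DecidablePred P] :
    ((min (y / W) k : ℕ) : ℝ) * (∑ r ∈ (range q).filter P, (n r : ℝ)) - E ≤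
        (#{b ∈ B | b < y ∧ P ((M + b) % q)} : ℝ) ∧
      (#{b ∈ B | b < y ∧ P ((M + b) % q)} : ℝ) ≤
        (((min (y / W) k : ℕ) : ℝ) + 1) * (∑ r ∈ (range q).filter P, (n r : ℝ)) := by
  classical
  obtain ⟨w₀, hw₀⟩ : ∃ w₀, w₀ = min (y / W) k := ⟨_, rfl⟩
  rw [← hw₀]
  have hcount := card_cells B M W q k hq hB (fun b => b < y ∧ P ((M + b) % q))
  -- the value of a cell
  have hcell : ∀ w < k, ∀ r < q, #{b ∈ cell B M W q w r | b < y ∧ P ((M + b) % q)} ≤
      if P r ∧ w ≤ w₀ then n r else 0 := by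
    intro w hw r hr
    by_cases hP : P r
    · by_cases hww : w ≤ w₀
      · rw [if_pos ⟨hP, hww⟩]
        exact (card_filter_le _ _).trans (hup w hw r hr)
      · rw [if_neg (fun h => hww h.2), Nat.le_zero, card_eq_zero, filter_eq_empty_iff]
        intro b hb hby
        unfold cell at hb
        rw [mem_filter] at hb
        have h1 : b / W ≤ y / W := Nat.div_le_div_right hby.1.le
        have h2 : w < k := hw
        rw [hw₀] at hww
        omega
    · rw [if_neg (fun h => hP h.1), Nat.le_zero, card_eq_zero, filter_eq_empty_iff]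
      intro b hb hby
      unfold cell at hb
      rw [mem_filter] at hb
      rw [hb.2.2] at hby
      exact hP hby.2
  have hcell' : ∀ w < w₀, ∀ r < q, P r →
      #{b ∈ cell B M W q w r | b < y ∧ P ((M + b) % q)} = #(cell B M W q w r) := by
    intro w hw r hr hP
    congr 1
    rw [filter_eq_self]
    intro b hb
    unfold cell at hb
    rw [mem_filter] at hb
    refine ⟨?_, by rw [hb.2.2]; exact hP⟩
    have h1 : w < y / W := by
      rw [hw₀] at hw
      omega
    rw [← hb.2.1] at h1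
    by_contra hcon
    have h2 : y / W ≤ b / W := Nat.div_le_div_right (not_lt.1 hcon)
    omega
  have hwk : w₀ ≤ k := by rw [hw₀]; exact min_le_right _ _
  constructor
  · -- lower bound
    have htot := card_cells B M W q k hq hB (fun _ => True)
    simp only [filter_true] at htot
    have hdef := defect_le (range k ×ˢ range q) (range w₀ ×ˢ (range q).filter P)
      (product_subset_product (range_mono hwk) (filter_subset _ _))
      (fun i => (#(cell B M W q i.1 i.2) : ℝ)) (fun i => (n i.2 : ℝ)) (by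
        intro i hi
        rw [mem_product, mem_range, mem_range] at hi
        exact_mod_cast hup i.1 hi.1 i.2 hi.2)
    have h1 : ∑ i ∈ range w₀ ×ˢ (range q).filter P, (n i.2 : ℝ) =
        (w₀ : ℝ) * ∑ r ∈ (range q).filter P, (n r : ℝ) := by
      rw [sum_product]
      show ∑ _w ∈ range w₀, ∑ r ∈ (range q).filter P, (n r : ℝ) = _
      rw [sum_const, card_range, nsmul_eq_mul]
    have h2 : ∑ i ∈ range k ×ˢ range q, (n i.2 : ℝ) = (k : ℝ) * ∑ r ∈ range q, (n r : ℝ) := by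
      rw [sum_product]
      show ∑ _w ∈ range k, ∑ r ∈ range q, (n r : ℝ) = _
      rw [sum_const, card_range, nsmul_eq_mul]
    have h3 : ∑ i ∈ range k ×ˢ range q, (#(cell B M W q i.1 i.2) : ℝ) = #B := by
      rw [htot, sum_product]
      push_cast
      rfl
    have h4 : ∑ i ∈ range w₀ ×ˢ (range q).filter P, (#(cell B M W q i.1 i.2) : ℝ) ≤
        (#{b ∈ B | b < y ∧ P ((M + b) % q)} : ℝ) := by
      rw [hcount, sum_product]
      push_cast
      calc ∑ w ∈ range w₀, ∑ r ∈ (range q).filter P, (#(cell B M W q w r) : ℝ)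
          = ∑ w ∈ range w₀, ∑ r ∈ (range q).filter P,
            (#{b ∈ cell B M W q w r | b < y ∧ P ((M + b) % q)} : ℝ) := by
            refine sum_congr rfl fun w hw => sum_congr rfl fun r hr => ?_
            rw [mem_filter, mem_range] at hr
            rw [hcell' w (mem_range.1 hw) r hr.1 hr.2]
        _ ≤ ∑ w ∈ range w₀, ∑ r ∈ range q,
            (#{b ∈ cell B M W q w r | b < y ∧ P ((M + b) % q)} : ℝ) :=
            sum_le_sum fun w _ => sum_le_sum_of_subset_of_nonneg (filter_subset _ _)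
              fun _ _ _ => Nat.cast_nonneg _
        _ ≤ ∑ w ∈ range k, ∑ r ∈ range q,
            (#{b ∈ cell B M W q w r | b < y ∧ P ((M + b) % q)} : ℝ) :=
            sum_le_sum_of_subset_of_nonneg (range_mono hwk)
              fun _ _ _ => sum_nonneg fun _ _ => Nat.cast_nonneg _
    have h5 : (k : ℝ) * ∑ r ∈ range q, (n r : ℝ) ≤ #B + E := by exact_mod_cast hlow
    rw [h1, h2, h3] at hdef
    linarith
  · -- upper bound
    rw [hcount]
    push_cast
    calc ∑ w ∈ range k, ∑ r ∈ range q,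
          (#{b ∈ cell B M W q w r | b < y ∧ P ((M + b) % q)} : ℝ)
        ≤ ∑ w ∈ range k, ∑ r ∈ range q, (if P r ∧ w ≤ w₀ then (n r : ℝ) else 0) := by
          refine sum_le_sum fun w hw => sum_le_sum fun r hr => ?_
          have h1 := hcell w (mem_range.1 hw) r (mem_range.1 hr)
          have h2 : ((if P r ∧ w ≤ w₀ then n r else 0 : ℕ) : ℝ) =
              (if P r ∧ w ≤ w₀ then (n r : ℝ) else 0) := by split_ifs <;> simp
          rw [← h2]
          exact_mod_cast h1
      _ = ∑ w ∈ range k, (if w ≤ w₀ then ∑ r ∈ (range q).filter P, (n r : ℝ) else 0) := by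
          refine sum_congr rfl fun w _ => ?_
          by_cases hw : w ≤ w₀
          · rw [if_pos hw, sum_filter]
            exact sum_congr rfl fun r _ => by simp [hw]
          · rw [if_neg hw]
            exact sum_eq_zero fun r _ => by simp [hw]
      _ = ∑ w ∈ (range k).filter (fun w => w ≤ w₀), ∑ r ∈ (range q).filter P, (n r : ℝ) :=
          (sum_filter _ _).symm
      _ = (#((range k).filter (fun w => w ≤ w₀)) : ℝ) * ∑ r ∈ (range q).filter P, (n r : ℝ) := by
          rw [sum_const, nsmul_eq_mul]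
      _ ≤ ((w₀ : ℝ) + 1) * ∑ r ∈ (range q).filter P, (n r : ℝ) := by
          refine mul_le_mul_of_nonneg_right ?_ (sum_nonneg fun _ _ => Nat.cast_nonneg _)
          have h1 : #((range k).filter (fun w => w ≤ w₀)) ≤ #(range (w₀ + 1)) := by
            refine card_le_card fun w hw => ?_
            rw [mem_filter] at hw
            exact mem_range.2 (Nat.lt_succ_of_le hw.2)
          rw [card_range] at h1
          exact_mod_cast h1

/-- rounding -/
theorem floor_sum (s : Finset ℕ) (ν : ℕ → ℝ) (X : ℝ) (hν : ∀ r ∈ s, 0 ≤ ν r) (hX : 0 ≤ X) :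
    (∑ r ∈ s, ν r) * X - #s ≤ ∑ r ∈ s, (⌊ν r * X⌋₊ : ℝ) ∧
      ∑ r ∈ s, (⌊ν r * X⌋₊ : ℝ) ≤ (∑ r ∈ s, ν r) * X := by
  constructor
  · rw [sum_mul, card_eq_sum_ones]
    push_cast
    rw [← sum_sub_distrib]
    refine sum_le_sum fun r _ => ?_
    have := (Nat.lt_floor_add_one (ν r * X)).le
    linarith
  · rw [sum_mul]
    exact sum_le_sum fun r hr => Nat.floor_le (mul_nonneg (hν r hr) hX)

/-- **the discrepancy for every cut and every divisor `q₀` of `q`**. `ν` is a probability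
distribution on the classes modulo `q`, `μ` the mass of the class `r₀` modulo `q₀`. -/
theorem cut_bound (B : Finset ℕ) (M W q k E : ℕ) (hW : 0 < W) (hq : 0 < q)
    (hB : ∀ b ∈ B, b / W < k) (ν : ℕ → ℝ) (X : ℝ) (hX : 0 ≤ X) (hν : ∀ r < q, 0 ≤ ν r)
    (hν1 : ∑ r ∈ range q, ν r = 1)
    (hup : ∀ w < k, ∀ r < q, #(cell B M W q w r) ≤ ⌊ν r * X⌋₊)
    (hlow : k * ∑ r ∈ range q, ⌊ν r * X⌋₊ ≤ #B + E) (y q₀ r₀ : ℕ) (hq₀ : q₀ ∣ q) (μ : ℝ)
    (hμ : ∑ r ∈ (range q).filter (fun r => r % q₀ = r₀), ν r = μ) :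
    |(#{b ∈ B | b < y ∧ (M + b) % q₀ = r₀} : ℝ) - μ * #{b ∈ B | b < y}| ≤
      X + k * q + E := by
  classical
  obtain ⟨w₀, hw₀⟩ : ∃ w₀, w₀ = min (y / W) k := ⟨_, rfl⟩
  have hwk : (w₀ : ℝ) ≤ k := by
    rw [hw₀]; exact_mod_cast min_le_right _ _
  have hw00 : (0 : ℝ) ≤ w₀ := Nat.cast_nonneg _
  obtain ⟨c1, c2⟩ := count_bounds B M W q k E hW hq hB (fun r => ⌊ν r * X⌋₊) hup hlow y
    (fun r => r % q₀ = r₀)
  obtain ⟨t1, t2⟩ := count_bounds B M W q k E hW hq hB (fun r => ⌊ν r * X⌋₊) hup hlow y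
    (fun _ => True)
  have e1 : ({b ∈ B | b < y ∧ (M + b) % q % q₀ = r₀} : Finset ℕ) =
      ({b ∈ B | b < y ∧ (M + b) % q₀ = r₀} : Finset ℕ) := by
    refine filter_congr fun b _ => ?_
    rw [Nat.mod_mod_of_dvd _ hq₀]
  simp only [and_true, filter_true] at t1 t2
  rw [e1] at c1 c2
  rw [← hw₀] at c1 c2 t1 t2
  obtain ⟨f1, f2⟩ := floor_sum ((range q).filter (fun r => r % q₀ = r₀)) ν X
    (fun r hr => hν r (mem_range.1 (mem_filter.1 hr).1)) hX
  obtain ⟨g1, g2⟩ := floor_sum (range q) ν X (fun r hr => hν r (mem_range.1 hr)) hX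
  rw [hμ] at f1 f2
  rw [hν1, one_mul] at g1 g2
  rw [card_range] at g1
  have hcard : (#((range q).filter (fun r => r % q₀ = r₀)) : ℝ) ≤ q := by
    have := card_filter_le (range q) (fun r => r % q₀ = r₀)
    rw [card_range] at this
    exact_mod_cast this
  have hμ0 : 0 ≤ μ := by
    rw [← hμ]
    exact sum_nonneg fun r hr => hν r (mem_range.1 (mem_filter.1 hr).1)
  have hμ1 : μ ≤ 1 := by
    rw [← hμ, ← hν1]
    exact sum_le_sum_of_subset_of_nonneg (filter_subset _ _) fun r hr _ =>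
      hν r (mem_range.1 hr)
  obtain ⟨S, hS⟩ : ∃ S : ℝ, S = ∑ r ∈ (range q).filter (fun r => r % q₀ = r₀),
    ((⌊ν r * X⌋₊ : ℕ) : ℝ) := ⟨_, rfl⟩
  obtain ⟨T, hT⟩ : ∃ T : ℝ, T = ∑ r ∈ range q, ((⌊ν r * X⌋₊ : ℕ) : ℝ) := ⟨_, rfl⟩
  obtain ⟨a, ha⟩ : ∃ a : ℝ, a = (#{b ∈ B | b < y ∧ (M + b) % q₀ = r₀} : ℝ) := ⟨_, rfl⟩
  obtain ⟨b, hb⟩ : ∃ b : ℝ, b = (#{b ∈ B | b < y} : ℝ) := ⟨_, rfl⟩
  rw [← hS] at f1 f2 c1 c2
  rw [← hT] at g1 g2 t1 t2
  rw [← ha] at c1 c2
  rw [← hb] at t1 t2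
  rw [← ha, ← hb]
  have hE0 : (0 : ℝ) ≤ E := Nat.cast_nonneg _
  have hq0 : (0 : ℝ) ≤ q := Nat.cast_nonneg _
  have hT0 : 0 ≤ T := by rw [hT]; exact sum_nonneg fun _ _ => Nat.cast_nonneg _
  -- |S - μ T| ≤ q
  have k1 : S - μ * T ≤ q := by nlinarith
  have k2 : -(q : ℝ) ≤ S - μ * T := by nlinarith
  have k3 : (w₀ : ℝ) * (S - μ * T) ≤ k * q :=
    (mul_le_mul_of_nonneg_left k1 hw00).trans (mul_le_mul_of_nonneg_right hwk hq0)
  have k4 : -((k : ℝ) * q) ≤ (w₀ : ℝ) * (S - μ * T) := by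
    have := mul_le_mul_of_nonneg_left k2 hw00
    have h2 := mul_le_mul_of_nonneg_right hwk hq0
    linarith
  have k5 : S ≤ X := by nlinarith
  have k6 : μ * b ≤ μ * ((w₀ + 1) * T) := mul_le_mul_of_nonneg_left t2 hμ0
  have k7 : μ * (w₀ * T - E) ≤ μ * b := mul_le_mul_of_nonneg_left t1 hμ0
  have k8 : μ * T ≤ X := by nlinarith
  have k9 : μ * E ≤ E := by nlinarith
  rw [abs_le]
  constructor
  · have h1 : μ * ((w₀ + 1) * T) = w₀ * (μ * T) + μ * T := by ring
    have h2 : (w₀ : ℝ) * (S - μ * T) = w₀ * S - w₀ * (μ * T) := by ring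
    linarith
  · have h1 : μ * (w₀ * T - E) = w₀ * (μ * T) - μ * E := by ring
    have h2 : (w₀ : ℝ) * (S - μ * T) = w₀ * S - w₀ * (μ * T) := by ring
    have h3 : ((w₀ : ℝ) + 1) * S = w₀ * S + S := by ring
    linarith

end Pool.Agent.Helper80.RC
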