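import Pool.Agent.Helper80.RC.Iff

/-!
# Local distributions of sets with bounded mean square: the statement

A set `A` of natural numbers which is not `o(√x)` and has bounded mean square
`∑_{n < x} r(n)² ≤ C x` is distributed in the residue classes according to probability measures
`mu` on the profinite integers such that `mu * mu` has a square integrable density, and every such
measure occurs.
-/

set_option autoImplicit false

open Finset Filter

namespace Pool.Agent.Helper80.RC.Final

/-- `r(n)`: the number of ordered pairs of elements of `A` with sum `n` -/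
noncomputable def rep (A : Set ℕ) (n : ℕ) : ℕ :=
  {p : ℕ × ℕ | p.1 ∈ A ∧ p.2 ∈ A ∧ p.1 + p.2 = n}.ncard

/-- `A(x; q, r)`: the number of elements of `A` below `x` which are `r` modulo `q`; in particular
`A(x) = A(x; 1, 0)` is the number of all elements below `x` -/
noncomputable def count (A : Set ℕ) (x q r : ℕ) : ℕ := {a : ℕ | a ∈ A ∧ a < x ∧ a % q = r}.ncard

/-- a compatible system of probability distributions `mu q` on the residue classes modulo `q`
(a probability measure on the profinite integers) -/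
def System (mu : ℕ → ℕ → ℝ) : Prop :=
  mu 1 0 = 1 ∧ (∀ q, 0 < q → ∀ r < q, 0 ≤ mu q r) ∧
    ∀ q k, 0 < q → 0 < k → ∀ r < q, mu q r = ∑ j ∈ range k, mu (q * k) (r + q * j)

/-- the sum of the squares of the values of the convolution `mu q * mu q` -/
noncomputable def energy (mu : ℕ → ℕ → ℝ) (q : ℕ) : ℝ :=
  ∑ t ∈ range q, (∑ p ∈ range q ×ˢ range q with (p.1 + p.2) % q = t, mu q p.1 * mu q p.2) ^ 2

/-- along `x`, the elements of `A` are distributed according to `mu` -/
def Follows (A : Set ℕ) (x : ℕ → ℕ) (mu : ℕ → ℕ → ℝ) : Prop :=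
  ∀ q, 0 < q → ∀ r < q,
    Tendsto (fun i => (count A (x i) q r : ℝ) / count A (x i) 1 0) atTop (nhds (mu q r))

theorem rep_eq (A : Set ℕ) (n : ℕ) : Pool.Agent.Helper25.RC.rep A n = rep A n :=
  Pool.Agent.Helper80.RC.rep_eq A n

theorem count_eq (A : Set ℕ) (x q r : ℕ) :
    #{n ∈ Pool.Agent.Helper25.RC.below A x | n % q = r} = count A x q r := by
  classical
  unfold count
  rw [← Set.ncard_coe_finset]
  congr 1
  ext n
  rw [coe_filter, Set.mem_ofPred_eq, Pool.Agent.Helper25.RC.mem_below, Set.mem_ofPred_eq]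
  tauto

theorem count_one (A : Set ℕ) (x : ℕ) :
    #(Pool.Agent.Helper25.RC.below A x) = count A x 1 0 := by
  rw [← count_eq, filter_true_of_mem fun n _ => Nat.mod_one n]

theorem lifts (q k r : ℕ) (hq : 0 < q) (hr : r < q) (f : ℕ → ℝ) :
    ∑ s ∈ range (q * k) with s % q = r, f s = ∑ j ∈ range k, f (r + q * j) := by
  symm
  refine sum_bij (fun j _ => r + q * j) ?_ ?_ ?_ fun j _ => rfl
  · intro j hj
    rw [mem_range] at hj
    rw [mem_filter, mem_range, Nat.add_mul_mod_self_left, Nat.mod_eq_of_lt hr]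
    refine ⟨?_, rfl⟩
    calc r + q * j < q + q * j := by omega
      _ = q * (j + 1) := by ring
      _ ≤ q * k := Nat.mul_le_mul_left q hj
  · intro i _ j _ h
    exact Nat.eq_of_mul_eq_mul_left hq (Nat.add_left_cancel h)
  · intro s hs
    rw [mem_filter, mem_range] at hs
    refine ⟨s / q, mem_range.2 ((Nat.div_lt_iff_lt_mul hq).2 (by rw [mul_comm]; exact hs.1)), ?_⟩
    rw [← hs.2]
    exact Nat.mod_add_div s q

theorem system_iff (mu : ℕ → ℕ → ℝ) : Compatible mu ↔ System mu := by
  unfold Compatible System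
  refine and_congr_right fun _ => and_congr_right fun _ => ?_
  constructor
  · intro h q k hq hk r hr
    rw [h q k hq hk r hr, lifts q k r hq hr]
  · intro h q k hq hk r hr
    rw [h q k hq hk r hr, lifts q k r hq hr]

theorem energy_eq (mu : ℕ → ℕ → ℝ) (q : ℕ) (hq : 0 < q) :
    Pool.Agent.Helper38.RC.muE mu q = energy mu q := by
  classical
  unfold Pool.Agent.Helper38.RC.muE energy
  rw [← sum_fiberwise_of_maps_to (s := ((range q ×ˢ range q) ×ˢ (range q ×ˢ range q)).filter
      (fun p => (p.1.1 + p.1.2) % q = (p.2.1 + p.2.2) % q)) (t := range q)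
      (g := fun p => (p.1.1 + p.1.2) % q) fun p _ => mem_range.2 (Nat.mod_lt _ hq)]
  refine sum_congr rfl fun t _ => ?_
  rw [sq, sum_mul_sum, ← sum_product']
  refine sum_congr ?_ fun p _ => rfl
  ext p
  simp only [mem_filter, mem_product]
  constructor
  · rintro ⟨⟨⟨h1, h2⟩, h3⟩, h4⟩
    exact ⟨⟨h1, h4⟩, h2, by rw [← h3, h4]⟩
  · rintro ⟨⟨h1, h4⟩, h2, h3⟩
    exact ⟨⟨⟨h1, h2⟩, by rw [h4, h3]⟩, h4⟩

theorem ratio_eq (A : Set ℕ) (x q r : ℕ) :
    ratio A x q r = (count A x q r : ℝ) / count A x 1 0 := by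
  unfold ratio
  rw [count_eq, count_one]

/-- **LocalDistribution** -/
theorem main :
    (∀ mu : ℕ → ℕ → ℝ, System mu →
      [ (∃ (A : Set ℕ) (c C : ℝ), 0 < c ∧ (∀ x : ℕ, 2 ≤ x → c * √x ≤ count A x 1 0) ∧
          (∀ x : ℕ, ∑ n ∈ range x, (rep A n : ℝ) ^ 2 ≤ C * x) ∧ Follows A id mu),
        (∃ (A : Set ℕ) (c C : ℝ) (x : ℕ → ℕ), 0 < c ∧ StrictMono x ∧
          (∀ i, c * √(x i) ≤ count A (x i) 1 0) ∧
          (∀ y : ℕ, ∑ n ∈ range y, (rep A n : ℝ) ^ 2 ≤ C * y) ∧ Follows A x mu),
        (∃ C₀ : ℝ, ∀ q, 0 < q → q * energy mu q ≤ C₀) ].TFAE) ∧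
    ∀ (A : Set ℕ) (c C : ℝ) (x : ℕ → ℕ), 0 < c → StrictMono x →
      (∀ i, c * √(x i) ≤ count A (x i) 1 0) →
      (∀ y : ℕ, ∑ n ∈ range y, (rep A n : ℝ) ^ 2 ≤ C * y) →
      ∃ (φ : ℕ → ℕ) (mu : ℕ → ℕ → ℝ), StrictMono φ ∧ System mu ∧ Follows A (x ∘ φ) mu ∧
        ∀ q, 0 < q → q * energy mu q ≤ 6 * C / c ^ 4 := by
  have hrep : ∀ (A : Set ℕ) (y : ℕ), ∑ n ∈ range y, (Pool.Agent.Helper25.RC.rep A n : ℝ) ^ 2 =
      ∑ n ∈ range y, (rep A n : ℝ) ^ 2 := fun A y => sum_congr rfl fun n _ => by rw [rep_eq]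
  have ht : Tendsto (fun x : ℕ => 2 * x) atTop atTop :=
    tendsto_atTop_mono (fun x => by show x ≤ 2 * x; omega) tendsto_id
  refine ⟨fun mu hmu => ?_, fun A c C x hc hx hA hK => ?_⟩
  · have hmu' := (system_iff mu).2 hmu
    tfae_have 1 → 2 := by
      rintro ⟨A, c, C, hc, h1, h2, h3⟩
      refine ⟨A, c, C, fun i => i + 2, hc, fun i j h => Nat.add_lt_add_right h 2,
        fun i => h1 (i + 2) (by omega), h2, fun q hq r hr => ?_⟩
      exact (h3 q hq r hr).comp (tendsto_add_atTop_nat 2)
    tfae_have 2 → 3 := by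
      rintro ⟨A, c, C, x, hc, hx, h1, h2, h3⟩
      refine ⟨6 * C / c ^ 4, fun q hq => ?_⟩
      rw [← energy_eq mu q hq]
      refine nec_filter mu (A := A) (K := C) hc (map x atTop) hx.tendsto_atTop ?_ ?_ hq
        fun r hr => ?_
      · refine Eventually.frequently ?_
        rw [eventually_map]
        refine Eventually.of_forall fun i => ?_
        rw [count_one]
        exact h1 i
      · rw [eventually_map]
        refine Eventually.of_forall fun i => ?_
        have h4 := h2 (2 * x i)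
        rw [← hrep] at h4
        push_cast at h4
        exact h4
      · rw [tendsto_map'_iff]
        refine (h3 q hq r hr).congr fun i => ?_
        show _ = _
        simp only [Function.comp]
        rw [count_eq, count_one]
    tfae_have 3 → 1 := by
      rintro ⟨C₀, hE⟩
      obtain ⟨A, c, C, hc, h1, h2, h3⟩ := exists_of_energy mu hmu' C₀ fun q hq => by
        rw [energy_eq mu q hq]
        exact hE q hq
      refine ⟨A, c, C, hc, fun x hx => ?_, fun x => ?_, fun q hq r hr => ?_⟩
      · rw [← count_one]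
        exact h1 x hx
      · rw [← hrep]
        exact h2 x
      · refine (h3 q hq r hr).congr fun i => ?_
        rw [count_eq, count_one]
        rfl
    tfae_finish
  · have hx1 : StrictMono fun i => x (i + 1) := fun i j h => hx (Nat.add_lt_add_right h 1)
    have h0 : 0 < x (0 + 1) := (Nat.zero_le (x 0)).trans_lt (hx Nat.zero_lt_one)
    obtain ⟨φ, mu, hφ, hmu, h1, h2⟩ := limitDistribution A c C hc (fun i => x (i + 1)) hx1 h0
      (fun i => by rw [count_one]; exact hA (i + 1))
      (Eventually.of_forall fun y => by rw [hrep]; exact hK y)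
    refine ⟨fun i => φ i + 1, mu, fun i j h => Nat.add_lt_add_right (hφ h) 1,
      (system_iff mu).1 hmu, fun q hq r hr => ?_, fun q hq => ?_⟩
    · refine (h1 q hq r hr).congr fun i => ?_
      rw [ratio_eq]
      rfl
    · rw [← energy_eq mu q hq]
      exact h2 q hq

end Pool.Agent.Helper80.RC.Final
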