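import Pool.Agent.Helper38.RC.Nec

/-!
The local distribution of a set with bounded mean square, along a filter (helper38's `nec`, whose
proof is used verbatim, is the case of the filter `atTop`).
-/

set_option autoImplicit false

open Finset Filter

namespace Pool.Agent.Helper80.RC

open Pool.Agent
open Pool.Agent.Helper38.RC (cl muE sol_le sol_fiber)
open Pool.Agent.Helper25.RC (below rep repF)

/-- the limit distributions of a set along a filter on which it is not null and has bounded mean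
square -/
theorem nec_filter (μ : ℕ → ℕ → ℝ) {A : Set ℕ} {K δ : ℝ} (hδ : 0 < δ) (F : Filter ℕ)
    (hF : F ≤ atTop) (hfx : ∃ᶠ x : ℕ in F, δ * √x ≤ #(below A x))
    (hK : ∀ᶠ x : ℕ in F, ∑ n ∈ range (2 * x), (rep A n : ℝ) ^ 2 ≤ K * (2 * x))
    {q : ℕ} (hq : 0 < q)
    (hlim : ∀ r < q, Tendsto (fun x : ℕ => (#((below A x).filter (fun n => n % q = r)) : ℝ) /
      #(below A x)) F (nhds (μ q r))) :
    (q : ℝ) * muE μ q ≤ 6 * K / δ ^ 4 := by
  classical
  set f : ℕ → ℝ := fun x => (q : ℝ) * ∑ p ∈ ((range q ×ˢ range q) ×ˢ (range q ×ˢ range q)).filter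
      (fun p => (p.1.1 + p.1.2) % q = (p.2.1 + p.2.2) % q),
      ((cl (below A x) q p.1.1 : ℝ) / #(below A x)) * ((cl (below A x) q p.1.2 : ℝ) / #(below A x)) *
      (((cl (below A x) q p.2.1 : ℝ) / #(below A x)) *
        ((cl (below A x) q p.2.2 : ℝ) / #(below A x))) with hf
  have hlim' : ∀ r < q, Tendsto (fun x : ℕ => (cl (below A x) q r : ℝ) / #(below A x)) F
      (nhds (μ q r)) := hlim
  have hft : Tendsto f F (nhds ((q : ℝ) * muE μ q)) := by
    refine Tendsto.const_mul _ ?_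
    unfold muE
    refine tendsto_finsetSum _ (fun p hp => ?_)
    obtain ⟨h1, _⟩ := mem_filter.1 hp
    rw [mem_product, mem_product, mem_product, mem_range, mem_range, mem_range, mem_range] at h1
    exact ((hlim' _ h1.1.1).mul (hlim' _ h1.1.2)).mul ((hlim' _ h1.2.1).mul (hlim' _ h1.2.2))
  have hfreq : ∃ᶠ x : ℕ in F, f x ≤ 6 * K / δ ^ 4 := by
    refine (hfx.and_eventually (hK.and (((eventually_ge_atTop q).filter_mono hF).and
      ((eventually_ge_atTop 1).filter_mono hF)))).mono ?_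
    rintro x ⟨h1, h2, h3, h4⟩
    have hxR : (1 : ℝ) ≤ x := by exact_mod_cast h4
    have hsx : 0 < √(x : ℝ) := Real.sqrt_pos.2 (by linarith)
    set S := below A x with hS
    have hSx : S ⊆ range x := Helper25.RC.below_subset_range A x
    have hT : 0 < (#S : ℝ) := lt_of_lt_of_le (by positivity) h1
    have hsol := sol_le S hSx hq h3
    rw [sol_fiber S hq] at hsol
    have h5 : f x = (q : ℝ) * ((∑ p ∈ ((range q ×ˢ range q) ×ˢ (range q ×ˢ range q)).filter
        (fun p => (p.1.1 + p.1.2) % q = (p.2.1 + p.2.2) % q),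
        cl S q p.1.1 * cl S q p.1.2 * (cl S q p.2.1 * cl S q p.2.2) : ℕ) : ℝ) / (#S : ℝ) ^ 4 := by
      simp only [hf, ← hS]
      push_cast
      rw [mul_div_assoc, Finset.sum_div]
      congr 1
      refine Finset.sum_congr rfl (fun p _ => ?_)
      field_simp
    rw [h5, div_le_div_iff₀ (by positivity) (by positivity)]
    have h6 : ∑ n ∈ range (2 * x), (repF S n : ℝ) ^ 2 ≤ K * (2 * x) := by
      have h7 : ∑ n ∈ range (2 * x), (repF S n : ℝ) ^ 2 ≤ ∑ n ∈ range (2 * x), (rep A n : ℝ) ^ 2 := by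
        refine Finset.sum_le_sum (fun n _ => ?_)
        have : (repF S n : ℝ) ≤ rep A n := by exact_mod_cast Helper25.RC.repF_below_le A x n
        gcongr
      exact h7.trans h2
    have h8 : δ ^ 4 * (x : ℝ) ^ 2 ≤ (#S : ℝ) ^ 4 := by
      calc δ ^ 4 * (x : ℝ) ^ 2 = (δ * √x) ^ 4 := by
            rw [mul_pow]
            congr 1
            calc (x : ℝ) ^ 2 = ((√(x : ℝ)) ^ 2) ^ 2 := by rw [Real.sq_sqrt (by linarith)]
              _ = _ := by ring
        _ ≤ _ := by gcongr
    have h9 : 0 ≤ K * (2 * x) := le_trans (Finset.sum_nonneg (fun n _ => sq_nonneg _)) h6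
    have hK0 : 0 ≤ K := by
      by_contra hneg
      push Not at hneg
      nlinarith
    calc (q : ℝ) * ((∑ p ∈ ((range q ×ˢ range q) ×ˢ (range q ×ˢ range q)).filter
        (fun p => (p.1.1 + p.1.2) % q = (p.2.1 + p.2.2) % q),
        cl S q p.1.1 * cl S q p.1.2 * (cl S q p.2.1 * cl S q p.2.2) : ℕ) : ℝ) * δ ^ 4
        ≤ (3 * x * (K * (2 * x))) * δ ^ 4 := by
          refine mul_le_mul_of_nonneg_right (hsol.trans ?_) (by positivity)
          gcongr
      _ = 6 * K * (δ ^ 4 * (x : ℝ) ^ 2) := by ring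
      _ ≤ 6 * K * (#S : ℝ) ^ 4 := by gcongr
  exact le_of_tendsto_of_frequently hft hfreq

end Pool.Agent.Helper80.RC
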