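import Pool.Agent.Helper80.RC.Compact
import Pool.Agent.Helper80.RC.NecF

/-!
# Local distributions of sets with bounded mean square
-/

set_option autoImplicit false

open Finset Filter

namespace Pool.Agent.Helper80.RC

open Pool.Agent.Helper25.RC (below mem_below)
open Pool.Agent.Helper38.RC (muE)

/-- `A` has the local distribution `mu` -/
def HasLocal (A : Set ℕ) (mu : ℕ → ℕ → ℝ) : Prop :=
  ∀ q : ℕ, 0 < q → ∀ r < q, Tendsto (fun x => ratio A x q r) atTop (nhds (mu q r))

/-- **LocalDistribution**: the three equivalent properties -/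
theorem localDistribution (mu : ℕ → ℕ → ℝ) (hmu : Compatible mu) :
    [ (∃ (A : Set ℕ) (c C : ℝ), 0 < c ∧ (∀ x : ℕ, 2 ≤ x → c * √x ≤ #(below A x)) ∧
        (∀ x : ℕ, ∑ n ∈ range x, (Pool.Agent.Helper25.RC.rep A n : ℝ) ^ 2 ≤ C * x) ∧
        HasLocal A mu),
      (∃ (A : Set ℕ) (c C : ℝ), 0 < c ∧ (∃ᶠ x : ℕ in atTop, c * √x ≤ #(below A x)) ∧
        (∀ᶠ x : ℕ in atTop, ∑ n ∈ range x, (Pool.Agent.Helper25.RC.rep A n : ℝ) ^ 2 ≤ C * x) ∧
        HasLocal A mu),
      (∃ C₀ : ℝ, ∀ q : ℕ, 0 < q → (q : ℝ) * muE mu q ≤ C₀)].TFAE := by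
  tfae_have 1 → 2 := by
    rintro ⟨A, c, C, hc, h1, h2, h3⟩
    refine ⟨A, c, C, hc, Eventually.frequently ?_, Eventually.of_forall h2, h3⟩
    filter_upwards [eventually_ge_atTop 2] with x hx
    exact h1 x hx
  tfae_have 2 → 3 := by
    rintro ⟨A, c, C, hc, h1, h2, h3⟩
    have ht : Tendsto (fun x : ℕ => 2 * x) atTop atTop :=
      tendsto_atTop_mono (fun x => by show x ≤ 2 * x; omega) tendsto_id
    refine ⟨6 * C / c ^ 4, fun q hq => nec_filter mu hc atTop le_rfl h1 ?_ hq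
      fun r hr => h3 q hq r hr⟩
    filter_upwards [ht.eventually h2] with x hx
    push_cast at hx
    exact hx
  tfae_have 3 → 1 := by
    rintro ⟨C₀, hE⟩
    exact exists_of_energy mu hmu C₀ hE
  tfae_finish

/-- **limit distributions** of a set which is not null and has bounded mean square: they exist
along a subsequence of every sequence of points where `A` is thick, and their energy is bounded -/
theorem limitDistribution (A : Set ℕ) (d K : ℝ) (hd : 0 < d) (y : ℕ → ℕ) (hy : StrictMono y)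
    (hy0 : 0 < y 0) (hA : ∀ i, d * √(y i) ≤ #(below A (y i)))
    (hK : ∀ᶠ x : ℕ in atTop, ∑ n ∈ range x, (Pool.Agent.Helper25.RC.rep A n : ℝ) ^ 2 ≤ K * x) :
    ∃ (φ : ℕ → ℕ) (mu : ℕ → ℕ → ℝ), StrictMono φ ∧ Compatible mu ∧
      (∀ q : ℕ, 0 < q → ∀ r < q,
        Tendsto (fun i => ratio A (y (φ i)) q r) atTop (nhds (mu q r))) ∧
      ∀ q : ℕ, 0 < q → (q : ℝ) * muE mu q ≤ 6 * K / d ^ 4 := by
  have hpos : ∀ i, 0 < #(below A (y i)) := by
    intro i
    have h1 : 0 < y i := hy0.trans_le (hy.monotone (Nat.zero_le i))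
    have h2 : 0 < √(y i : ℝ) := Real.sqrt_pos.2 (by exact_mod_cast h1)
    have h3 : (0 : ℝ) < #(below A (y i)) := lt_of_lt_of_le (by positivity) (hA i)
    exact_mod_cast h3
  obtain ⟨φ, mu, hφ, hmu, hlim⟩ := exists_limit A y hpos
  refine ⟨φ, mu, hφ, hmu, hlim, fun q hq => ?_⟩
  have hT : Tendsto (fun i => y (φ i)) atTop atTop := (hy.comp hφ).tendsto_atTop
  have ht : Tendsto (fun x : ℕ => 2 * x) atTop atTop :=
    tendsto_atTop_mono (fun x => by show x ≤ 2 * x; omega) tendsto_id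
  refine nec_filter mu (A := A) (K := K) hd (map (fun i => y (φ i)) atTop) hT ?_ ?_ hq fun r hr => ?_
  · refine Eventually.frequently ?_
    rw [eventually_map]
    exact Eventually.of_forall fun i => hA (φ i)
  · rw [eventually_map]
    filter_upwards [(ht.comp hT).eventually hK] with i hi
    have h1 : (((fun x : ℕ => 2 * x) ∘ fun i => y (φ i)) i : ℕ) = 2 * y (φ i) := rfl
    rw [h1] at hi
    push_cast at hi
    exact hi
  · rw [tendsto_map'_iff]
    exact hlim q hq r hr

end Pool.Agent.Helper80.RC
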