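import Pool.Agent.Helper80.RC.Union
import Pool.Agent.Helper38.RC.Scale2

/-!
# Local distributions: sufficiency
-/

set_option autoImplicit false

open Finset Filter

namespace Pool.Agent.Helper80.RC

open Pool.Agent.Helper25.RC (below mem_below)
open Pool.Agent.Helper38.RC (muE)

/-- `mu` is a compatible system of probability distributions on the residue classes modulo all
`q ≥ 1` (a probability measure on the profinite integers). -/
def Compatible (mu : ℕ → ℕ → ℝ) : Prop :=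
  mu 1 0 = 1 ∧ (∀ q, 0 < q → ∀ r < q, 0 ≤ mu q r) ∧
    ∀ q k, 0 < q → 0 < k → ∀ r < q,
      mu q r = ∑ s ∈ range (q * k) with s % q = r, mu (q * k) s

theorem Compatible.sum_eq {mu : ℕ → ℕ → ℝ} (h : Compatible mu) (q : ℕ) (hq : 0 < q) :
    ∑ r ∈ range q, mu q r = 1 := by
  have h1 := h.2.2 1 q one_pos hq 0 one_pos
  rw [h.1, one_mul] at h1
  rw [h1]
  refine sum_congr ?_ fun _ _ => rfl
  ext s
  simp [Nat.mod_one]

/-- the existence of a set with the local distribution `mu` -/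
theorem exists_of_energy (mu : ℕ → ℕ → ℝ) (hmu : Compatible mu) (C₀ : ℝ)
    (hE : ∀ q : ℕ, 0 < q → (q : ℝ) * muE mu q ≤ C₀) :
    ∃ (A : Set ℕ) (c C : ℝ), 0 < c ∧
      (∀ x : ℕ, 2 ≤ x → c * √x ≤ #(below A x)) ∧
      (∀ x : ℕ, ∑ n ∈ range x, (Pool.Agent.Helper25.RC.rep A n : ℝ) ^ 2 ≤ C * x) ∧
      ∀ q : ℕ, 0 < q → ∀ r < q,
        Tendsto (fun x : ℕ => (#{n ∈ below A x | n % q = r} : ℝ) / #(below A x)) atTop
          (nhds (mu q r)) := by
  obtain ⟨ν, hν⟩ : ∃ ν : ℕ → ℕ → ℝ, ν = fun q r => if r < q then mu q r else 0 := ⟨_, rfl⟩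
  have hνlt : ∀ q r, r < q → ν q r = mu q r := by
    intro q r hr
    rw [hν]
    exact if_pos hr
  have h0 : ∀ q r, 0 ≤ ν q r := by
    intro q r
    by_cases hr : r < q
    · rw [hνlt q r hr]
      exact hmu.2.1 q (Nat.zero_lt_of_lt hr) r hr
    · rw [hν]
      exact (if_neg hr).ge
  have h1 : ∀ q, 0 < q → ∑ r ∈ range q, ν q r = 1 := by
    intro q hq
    rw [← hmu.sum_eq q hq]
    exact sum_congr rfl fun r hr => hνlt q r (mem_range.1 hr)
  have hc : ∀ q k, 0 < q → 0 < k → ∀ r < q,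
      ν q r = ∑ s ∈ (range (q * k)).filter (fun s => s % q = r), ν (q * k) s := by
    intro q k hq hk r hr
    rw [hνlt q r hr, hmu.2.2 q k hq hk r hr]
    exact sum_congr rfl fun s hs => (hνlt _ _ (mem_range.1 (mem_filter.1 hs).1)).symm
  have hE' : ∀ q : ℕ, 0 < q → (q : ℝ) * muE ν q ≤ C₀ := by
    intro q hq
    have h2 : muE ν q = muE mu q := by
      unfold muE
      refine sum_congr rfl fun p hp => ?_
      have h3 := (mem_filter.1 hp).1
      simp only [mem_product, mem_range] at h3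
      rw [hνlt _ _ h3.1.1, hνlt _ _ h3.1.2, hνlt _ _ h3.2.1, hνlt _ _ h3.2.2]
    rw [h2]
    exact hE q hq
  obtain ⟨A, c, C, hc0, h2, h3, h4⟩ := union ν (24 * C₀ + 2) fun s => by
    filter_upwards [Pool.Agent.Helper38.RC.scales ν h0 h1 hc hE' s] with j hj
    exact hj
  refine ⟨A, c, C, hc0, h2, h3, fun q hq r hr => ?_⟩
  rw [← hνlt q r hr]
  exact h4 q hq r hr

end Pool.Agent.Helper80.RC
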