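import Pool.Agent.Helper80.RC.Bdd

/-!
# Local distributions of thick sets with few representations

Let `r(n)` be the number of ordered pairs of elements of `A` with sum `n`. If `A` has at least
`c √x` elements below `x` for arbitrarily large `x` and `∑_{n < x} r(n)² ≤ C x`, for instance if
`r` is bounded, then along some sequence of `x` the elements of `A` are distributed in the residue
classes according to a probability measure `mu` on the profinite integers, and `mu * mu` has a
square integrable density. Conversely every such `mu` is the local distribution of a set `A` with at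
least `c √x` elements below `x` for all `x` and with bounded mean square. If `r` is bounded, then
the density of `mu * mu` is bounded, and it is bounded below if moreover all large `n` are sums of
two elements of `A`.
-/

set_option autoImplicit false

namespace Pool.Agent.Helper80.RC.Text

open Finset Filter

/-- `r(n)`: the number of ordered pairs of elements of `A` with sum `n` -/
noncomputable def rep (A : Set ℕ) (n : ℕ) : ℕ :=
  {p : ℕ × ℕ | p.1 ∈ A ∧ p.2 ∈ A ∧ p.1 + p.2 = n}.ncard

/-- `A(x; q, s)`: the number of elements of `A` below `x` which are `s` modulo `q`; in particular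
`A(x; 1, 0)` is the number `A(x)` of all elements below `x` -/
noncomputable def count (A : Set ℕ) (x q s : ℕ) : ℕ := {a : ℕ | a ∈ A ∧ a < x ∧ a % q = s}.ncard

/-- a compatible system of probability distributions `mu q` on the residue classes modulo `q`
(a probability measure on the profinite integers) -/
def System (mu : ℕ → ℕ → ℝ) : Prop :=
  mu 1 0 = 1 ∧ (∀ q, 0 < q → ∀ s < q, 0 ≤ mu q s) ∧
    ∀ q k, 0 < q → 0 < k → ∀ s < q, mu q s = ∑ j ∈ range k, mu (q * k) (s + q * j)

/-- the value at `t` of the convolution of `mu q` with itself -/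
noncomputable def conv (mu : ℕ → ℕ → ℝ) (q t : ℕ) : ℝ :=
  ∑ p ∈ range q ×ˢ range q with (p.1 + p.2) % q = t, mu q p.1 * mu q p.2

/-- along the sequence `x`, the elements of `A` are distributed according to `mu` -/
def Follows (A : Set ℕ) (x : ℕ → ℕ) (mu : ℕ → ℕ → ℝ) : Prop :=
  ∀ q, 0 < q → ∀ s < q,
    Tendsto (fun i => (count A (x i) q s : ℝ) / count A (x i) 1 0) atTop (nhds (mu q s))

theorem result :
    -- every system: three equivalent properties
    (∀ mu : ℕ → ℕ → ℝ, System mu →
      [ (∃ (A : Set ℕ) (c C : ℝ), 0 < c ∧ (∀ x : ℕ, 2 ≤ x → c * √x ≤ count A x 1 0) ∧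
          (∀ x : ℕ, ∑ n ∈ range x, (rep A n : ℝ) ^ 2 ≤ C * x) ∧ Follows A id mu),
        (∃ (A : Set ℕ) (c C : ℝ) (x : ℕ → ℕ), 0 < c ∧ StrictMono x ∧
          (∀ i, c * √(x i) ≤ count A (x i) 1 0) ∧
          (∀ y : ℕ, ∑ n ∈ range y, (rep A n : ℝ) ^ 2 ≤ C * y) ∧ Follows A x mu),
        (∃ C₀ : ℝ, ∀ q, 0 < q → q * ∑ t ∈ range q, conv mu q t ^ 2 ≤ C₀) ].TFAE) ∧
    -- every set: a limit distribution along a subsequence, and its energy
    (∀ (A : Set ℕ) (c C : ℝ) (x : ℕ → ℕ), 0 < c → StrictMono x →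
      (∀ i, c * √(x i) ≤ count A (x i) 1 0) →
      (∀ y : ℕ, ∑ n ∈ range y, (rep A n : ℝ) ^ 2 ≤ C * y) →
      ∃ (φ : ℕ → ℕ) (mu : ℕ → ℕ → ℝ), StrictMono φ ∧ System mu ∧ Follows A (x ∘ φ) mu ∧
        ∀ q, 0 < q → q * ∑ t ∈ range q, conv mu q t ^ 2 ≤ 6 * C / c ^ 4) ∧
    -- every set with bounded `r`: the density of `mu * mu`
    (∀ (A : Set ℕ) (c : ℝ) (g : ℕ) (x : ℕ → ℕ) (mu : ℕ → ℕ → ℝ), 0 < c → StrictMono x →
      (∀ i, c * √(x i) ≤ count A (x i) 1 0) → (∀ n, rep A n ≤ g) → Follows A x mu →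
      ∀ q, 0 < q → ∀ t < q, q * conv mu q t ≤ 2 * g / c ^ 2 ∧
        ((∃ n₀, ∀ n, n₀ ≤ n → 1 ≤ rep A n) → 1 / (2 * g : ℝ) ≤ q * conv mu q t)) := by
  refine ⟨Pool.Agent.Helper80.RC.Final.main.1, Pool.Agent.Helper80.RC.Final.main.2, ?_⟩
  intro A c g x mu hc hx hA hg h q hq t ht
  refine ⟨Pool.Agent.Helper80.RC.Final.conv_le hg hc hx hA h hq t, ?_⟩
  rintro ⟨n₀, hn⟩
  have h1 := Pool.Agent.Helper80.RC.Final.le_conv hg hn hx h hq ht
  have hg0 : 0 < g := lt_of_lt_of_le one_pos ((hn n₀ le_rfl).trans (hg n₀))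
  have hgR : (0 : ℝ) < 2 * g := by positivity
  rw [div_le_iff₀ hgR]
  refine h1.trans (le_of_eq ?_)
  show _ = (q * conv mu q t) * (2 * g)
  have e : Pool.Agent.Helper80.RC.Final.conv mu q t = conv mu q t := rfl
  rw [e]
  ring

end Pool.Agent.Helper80.RC.Text
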